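import Pool.Agent.R69.DegTwo2

/-!
# `M_2(m) = (m - 1) ^ 2 + 1` for infinitely many `m`
-/

set_option autoImplicit false

namespace Pool.Agent.Results.MP_a6acde_co.Sharp

open Pool.Agent.R69.DegTwo

/-- The graph formed by the edges of colour `j`, for a colouring `c` of the edges of `K_n`
(the values of `c` on the diagonal of `Sym2 (Fin n)` play no role). -/
def colourClass {n k : ℕ} (c : Sym2 (Fin n) → Fin k) (j : Fin k) : SimpleGraph (Fin n) where
  Adj u v := u ≠ v ∧ c s(u, v) = j
  symm := ⟨fun u v h => ⟨h.1.symm, by rw [Sym2.eq_swap]; exact h.2⟩⟩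
  loopless := ⟨fun _ h => h.1 rfl⟩

/-- The number of neighbours of `v` in `G`. -/
noncomputable def deg {V : Type} (G : SimpleGraph V) (v : V) : ℕ := (G.neighborSet v).ncard

/-- `G` contains a degree-monotone path of order `m`: distinct vertices `p 0, …, p (m - 1)`,
consecutive ones adjacent, whose degrees in `G` form a nondecreasing sequence. -/
def HasDegreeMonotonePath {V : Type} (G : SimpleGraph V) (m : ℕ) : Prop :=
  ∃ p : Fin m → V, Function.Injective p ∧
    (∀ i j : Fin m, (i : ℕ) + 1 = (j : ℕ) → G.Adj (p i) (p j)) ∧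
    (∀ i j : Fin m, i ≤ j → deg G (p i) ≤ deg G (p j))

/-- Every colouring of the edges of `K_n` with `k` colours has a colour class with a
degree-monotone path of order `m`. -/
def Forced (k m n : ℕ) : Prop :=
  ∀ c : Sym2 (Fin n) → Fin k, ∃ j : Fin k, HasDegreeMonotonePath (colourClass c j) m

/-- `M_k(m)`: the least `N` such that `Forced k m n` for every `n ≥ N`. -/
noncomputable def M (k m : ℕ) : ℕ := sInf {N : ℕ | ∀ n ≥ N, Forced k m n}

theorem deg_eq {n : ℕ} (c : Sym2 (Fin n) → Fin 2) (j : Fin 2) (v : Fin n) :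
    deg (colourClass c j) v =
      ((Finset.univ : Finset (Fin n)).filter fun w => w ≠ v ∧ c s(v, w) = j).card := by
  unfold deg
  rw [← Set.ncard_coe_finset]
  congr 1
  ext w
  simp only [SimpleGraph.mem_neighborSet, Finset.coe_filter, Finset.mem_univ, true_and,
    Set.mem_ofPred_eq, colourClass]
  tauto

theorem deg_add {n : ℕ} (c : Sym2 (Fin n) → Fin 2) (v : Fin n) :
    deg (colourClass c 0) v + deg (colourClass c 1) v + 1 = n := by
  classical
  rw [deg_eq, deg_eq, ← Finset.card_union_of_disjoint]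
  · have h1 : ((Finset.univ : Finset (Fin n)).filter fun w => w ≠ v ∧ c s(v, w) = 0) ∪
        ((Finset.univ : Finset (Fin n)).filter fun w => w ≠ v ∧ c s(v, w) = 1) =
        Finset.univ.erase v := by
      ext w
      simp only [Finset.mem_union, Finset.mem_filter, Finset.mem_univ, true_and,
        Finset.mem_erase, and_true]
      constructor
      · rintro (h | h)
        · exact h.1
        · exact h.1
      · intro h
        have h2 : c s(v, w) = 0 ∨ c s(v, w) = 1 := by
          have : ∀ x : Fin 2, x = 0 ∨ x = 1 := by decide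
          exact this _
        rcases h2 with h2 | h2
        · exact Or.inl ⟨h, h2⟩
        · exact Or.inr ⟨h, h2⟩
    rw [h1, Finset.card_erase_of_mem (Finset.mem_univ _), Finset.card_univ, Fintype.card_fin]
    have := v.2
    omega
  · rw [Finset.disjoint_left]
    intro w h1 h2
    rw [Finset.mem_filter] at h1 h2
    rw [h1.2.2] at h2
    exact absurd h2.2.2 (by decide)

theorem not_forced {N : ℕ} (h : Good N) : ¬ Forced 2 (N + 1) (N ^ 2) := by
  classical
  obtain ⟨V, _, _, c, c₀, h, hsymm, hcard, _, _, hp1, hp2⟩ := h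
  let e : V ≃ Fin (N ^ 2) := Fintype.equivFinOfCardEq hcard
  intro hF
  let c' : Sym2 (Fin (N ^ 2)) → Fin 2 := Sym2.lift
    ⟨fun u v => if c (e.symm u) (e.symm v) = true then 0 else 1, fun u v => by
      simp only [hsymm (e.symm u) (e.symm v)]⟩
  have hc0 : ∀ u v, c' s(u, v) = 0 ↔ c (e.symm u) (e.symm v) = true := by
    intro u v
    simp only [c', Sym2.lift_mk]
    split_ifs with h1
    · simp [h1]
    · simp [h1]
  have hc1 : ∀ u v, c' s(u, v) = 1 ↔ c (e.symm u) (e.symm v) = false := by
    intro u v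
    simp only [c', Sym2.lift_mk]
    split_ifs with h1
    · simp [h1]
    · simp [h1]
  have hdg : ∀ u, deg (colourClass c' 0) u = dg c (e.symm u) := by
    intro u
    rw [deg_eq]
    unfold dg
    refine Finset.card_bij (fun w _ => e.symm w) ?_ ?_ ?_
    · intro w hw
      simp only [Finset.mem_filter, Finset.mem_univ, true_and] at hw ⊢
      exact ⟨fun h => hw.1 (e.symm.injective h), (hc0 _ _).1 hw.2⟩
    · intro w _ w' _ h
      exact e.symm.injective h
    · intro w hw
      simp only [Finset.mem_filter, Finset.mem_univ, true_and] at hw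
      refine ⟨e w, ?_, by simp⟩
      simp only [Finset.mem_filter, Finset.mem_univ, true_and]
      refine ⟨?_, ?_⟩
      · intro h
        apply hw.1
        rw [← h, Equiv.symm_apply_apply]
      · rw [hc0, Equiv.symm_apply_apply]
        exact hw.2
  obtain ⟨j, p, hpinj, hadj, hdeg⟩ := hF c'
  have hj : j = 0 ∨ j = 1 := by
    have : ∀ x : Fin 2, x = 0 ∨ x = 1 := by decide
    exact this _
  rcases hj with rfl | rfl
  · have := hp1.bound (fun i => e.symm (p i)) (fun a b hab => hpinj (e.symm.injective hab))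
      (fun i j hij => (hc0 _ _).1 (hadj i j hij).2)
      (fun i j hij => by
        have := hdeg i j hij
        rw [hdg, hdg] at this
        exact_mod_cast this)
    omega
  · have := hp2.bound (fun i => e.symm (p i)) (fun a b hab => hpinj (e.symm.injective hab))
      (fun i j hij => (hc1 _ _).1 (hadj i j hij).2)
      (fun i j hij => by
        have h1 := hdeg i j hij
        have h2 := deg_add c' (p i)
        have h3 := deg_add c' (p j)
        rw [hdg] at h2 h3
        simp only [neg_le_neg_iff, Nat.cast_le]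
        omega)
    omega

/-- the key of a vertex: the degree in colour `0`, ties being broken by the number of the vertex -/
noncomputable def key {n : ℕ} (c : Sym2 (Fin n) → Fin 2) (v : Fin n) : ℕ :=
  deg (colourClass c 0) v * n + v

theorem key_inj {n : ℕ} (c : Sym2 (Fin n) → Fin 2) {u v : Fin n}
    (h : key c u = key c v) : u = v := by
  unfold key at h
  have h1 := congrArg (· % n) h
  simp only [Nat.mul_add_mod_self_right] at h1
  rw [Nat.mod_eq_of_lt u.2, Nat.mod_eq_of_lt v.2] at h1
  exact Fin.ext h1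

theorem key_le {n : ℕ} (c : Sym2 (Fin n) → Fin 2) {u v : Fin n}
    (h : key c u ≤ key c v) : deg (colourClass c 0) u ≤ deg (colourClass c 0) v := by
  unfold key at h
  by_contra hcon
  rw [not_le] at hcon
  have h1 : (deg (colourClass c 0) v + 1) * n ≤ deg (colourClass c 0) u * n :=
    Nat.mul_le_mul_right _ hcon
  have := v.2
  nlinarith

/-- a long descending list gives a monotone path -/
theorem path_of_list {n m : ℕ} (c : Sym2 (Fin n) → Fin 2) (j : Fin 2) (l : List (Fin n))
    (hl : l.IsChain fun u v => key c v < key c u ∧ c s(u, v) = j) (hm : m ≤ l.length) :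
    HasDegreeMonotonePath (colourClass c j) m := by
  have hpw : l.Pairwise fun u v => key c v < key c u := by
    have h1 : l.IsChain fun u v => key c v < key c u := hl.imp fun _ _ h => h.1
    have : IsTrans (Fin n) (fun u v => key c v < key c u) :=
      ⟨fun _ _ _ h1 h2 => lt_trans h2 h1⟩
    exact List.isChain_iff_pairwise.1 h1
  have hlt : ∀ (a b : ℕ) (ha : a < l.length) (hb : b < l.length), a < b →
      key c l[b] < key c l[a] := by
    intro a b ha hb hab
    exact List.pairwise_iff_getElem.1 hpw a b ha hb hab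
  have hle : ∀ (a b : ℕ) (ha : a < l.length) (hb : b < l.length), a ≤ b →
      key c l[b] ≤ key c l[a] := by
    intro a b ha hb hab
    rcases hab.lt_or_eq with h | h
    · exact (hlt a b ha hb h).le
    · subst h; exact le_refl _
  have hne : ∀ (a b : ℕ) (ha : a < l.length) (hb : b < l.length), l[a] = l[b] → a = b := by
    intro a b ha hb hab
    rcases lt_trichotomy a b with h | h | h
    · have := hlt a b ha hb h
      rw [hab] at this
      omega
    · exact h
    · have := hlt b a hb ha h
      rw [hab] at this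
      omega
  have hch : ∀ (a : ℕ) (ha : a + 1 < l.length), key c l[a + 1] < key c l[a] ∧
      c s(l[a], l[a + 1]) = j := by
    intro a ha
    exact List.isChain_iff_getElem.1 hl a ha
  have hj : j = 0 ∨ j = 1 := by
    have : ∀ x : Fin 2, x = 0 ∨ x = 1 := by decide
    exact this _
  rcases hj with rfl | rfl
  · -- reverse the list
    refine ⟨fun i => l[m - 1 - (i : ℕ)]'(by have := i.2; omega), ?_, ?_, ?_⟩
    · intro a b hab
      have := hne _ _ _ _ hab
      have h1 := a.2
      have h2 := b.2
      exact Fin.ext (by omega)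
    · intro a b hab
      have h1 := a.2
      have h2 := b.2
      have h3 := hch (m - 1 - (b : ℕ)) (by omega)
      have h4 : m - 1 - (b : ℕ) + 1 = m - 1 - (a : ℕ) := by omega
      simp only [h4] at h3
      refine (?_ : (colourClass c 0).Adj _ _).symm
      refine ⟨?_, h3.2⟩
      intro h
      have := hne _ _ _ _ h
      omega
    · intro a b hab
      apply key_le
      apply hle
      have : (a : ℕ) ≤ b := hab
      omega
  · refine ⟨fun i => l[(i : ℕ)]'(by have := i.2; omega), ?_, ?_, ?_⟩
    · intro a b hab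
      have := hne _ _ _ _ hab
      exact Fin.ext this
    · intro a b hab
      have h1 := a.2
      have h2 := b.2
      have h3 := hch (a : ℕ) (by omega)
      simp only [hab] at h3
      refine ⟨?_, h3.2⟩
      intro h
      have := hne _ _ _ _ h
      omega
    · intro a b hab
      have h1 := key_le c (hle a b (by have := a.2; omega) (by have := b.2; omega) hab)
      have h2 := deg_add c (l[(a : ℕ)]'(by have := a.2; omega))
      have h3 := deg_add c (l[(b : ℕ)]'(by have := b.2; omega))
      simp only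
      omega

theorem forced_of_lt {m n : ℕ} (h : (m - 1) ^ 2 < n) : Forced 2 m n := by
  classical
  intro c
  by_contra hcon
  push Not at hcon
  let S : Fin 2 → Fin n → Set ℕ := fun j v => {k | ∃ l : List (Fin n),
    (v :: l).IsChain (fun u v => key c v < key c u ∧ c s(u, v) = j) ∧ (v :: l).length = k}
  have hS1 : ∀ j v, 1 ∈ S j v := fun j v => ⟨[], by simp, rfl⟩
  have hSb : ∀ j v, ∀ k ∈ S j v, k + 1 ≤ m := by
    rintro j v k ⟨l, hl, rfl⟩
    by_contra hk
    exact hcon j (path_of_list c j (v :: l) hl (by omega))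
  have hSbdd : ∀ j v, BddAbove (S j v) := fun j v =>
    ⟨m, fun k hk => by have := hSb j v k hk; omega⟩
  let a : Fin 2 → Fin n → ℕ := fun j v => sSup (S j v)
  have hmem : ∀ j v, a j v ∈ S j v := fun j v => Nat.sSup_mem ⟨1, hS1 j v⟩ (hSbdd j v)
  have ha1 : ∀ j v, 1 ≤ a j v := fun j v => le_csSup (hSbdd j v) (hS1 j v)
  have ham : ∀ j v, a j v + 1 ≤ m := fun j v => hSb j v _ (hmem j v)
  have hstep : ∀ u v : Fin n, key c u < key c v → a (c s(v, u)) u < a (c s(v, u)) v := by
    intro u v huv
    obtain ⟨l, hl, hlen⟩ := hmem (c s(v, u)) u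
    have h1 : a (c s(v, u)) u + 1 ∈ S (c s(v, u)) v := by
      refine ⟨u :: l, ?_, ?_⟩
      · rw [List.isChain_cons_cons]
        exact ⟨⟨huv, rfl⟩, hl⟩
      · rw [List.length_cons, hlen]
    exact le_csSup (hSbdd _ v) h1
  let φ : Fin n → Fin (m - 1) × Fin (m - 1) := fun v =>
    (⟨a 0 v - 1, by have := ha1 0 v; have := ham 0 v; omega⟩,
      ⟨a 1 v - 1, by have := ha1 1 v; have := ham 1 v; omega⟩)
  have hinj : Function.Injective φ := by
    have main : ∀ u v : Fin n, key c u < key c v → φ u ≠ φ v := by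
      intro u v huv hφ
      simp only [φ, Prod.mk.injEq, Fin.mk.injEq] at hφ
      have h0 := ha1 0 u
      have h0' := ha1 0 v
      have h1 := ha1 1 u
      have h1' := ha1 1 v
      have hj : c s(v, u) = 0 ∨ c s(v, u) = 1 := by
        have : ∀ x : Fin 2, x = 0 ∨ x = 1 := by decide
        exact this _
      have h2 := hstep u v huv
      rcases hj with hj | hj
      · rw [hj] at h2
        omega
      · rw [hj] at h2
        omega
    intro u v huv
    rcases lt_trichotomy (key c u) (key c v) with h1 | h1 | h1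
    · exact absurd huv (main u v h1)
    · exact key_inj c h1
    · exact absurd huv.symm (main v u h1)
  have h1 := Fintype.card_le_of_injective φ hinj
  rw [Fintype.card_prod, Fintype.card_fin, Fintype.card_fin, ← pow_two] at h1
  omega

theorem isLeast_M (m : ℕ) : IsLeast {N : ℕ | ∀ n ≥ N, Forced 2 m n} (M 2 m) := by
  constructor
  · exact Nat.sInf_mem ⟨(m - 1) ^ 2 + 1, fun n hn => forced_of_lt hn⟩
  · intro N hN
    exact Nat.sInf_le hN

theorem M_le (m : ℕ) : M 2 m ≤ (m - 1) ^ 2 + 1 :=
  (isLeast_M m).2 fun _ hn => forced_of_lt hn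

theorem M_eq (k : ℕ) : M 2 (6 * 7 ^ k + 1) = (6 * 7 ^ k) ^ 2 + 1 := by
  apply le_antisymm
  · have := M_le (6 * 7 ^ k + 1)
    rwa [Nat.add_sub_cancel] at this
  · by_contra hcon
    exact not_forced (good_family k)
      ((isLeast_M (6 * 7 ^ k + 1)).1 _ (Nat.le_of_lt_succ (not_le.1 hcon)))

/-- **Main theorem.** The upper bound `M_2(m) ≤ (m - 1) ^ 2 + 1` is attained for infinitely many
`m`, namely for all `m = 6 * 7 ^ k + 1`; for instance `M_2(7) = 37`. So the statement in the
question is false: the difference `(m - 1) ^ 2 - M_2(m)` does not tend to infinity. (The first part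
says that the least `N` in the definition of `M_2(m)` exists.) -/
theorem result :
    (∀ m : ℕ, IsLeast {N : ℕ | ∀ n ≥ N, Forced 2 m n} (M 2 m)) ∧
    (∀ k : ℕ, M 2 (6 * 7 ^ k + 1) = (6 * 7 ^ k) ^ 2 + 1) ∧
    (∀ m₀ : ℕ, ∃ m ≥ m₀, M 2 m = (m - 1) ^ 2 + 1) ∧
    ¬ (∀ C : ℤ, ∃ m₀ : ℕ, ∀ m ≥ m₀, (M 2 m : ℤ) ≤ ((m : ℤ) - 1) ^ 2 - C) := by
  have h3 : ∀ m₀ : ℕ, ∃ m ≥ m₀, M 2 m = (m - 1) ^ 2 + 1 ∧ 1 ≤ m := by
    intro m₀
    refine ⟨6 * 7 ^ m₀ + 1, ?_, ?_, by omega⟩
    · have : m₀ < 7 ^ m₀ := Nat.lt_pow_self (by norm_num)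
      omega
    · rw [M_eq, Nat.add_sub_cancel]
  refine ⟨isLeast_M, M_eq, fun m₀ => ?_, ?_⟩
  · obtain ⟨m, hm, h, _⟩ := h3 m₀
    exact ⟨m, hm, h⟩
  · intro h
    obtain ⟨m₀, hm₀⟩ := h 0
    obtain ⟨m, hm, hM, h1⟩ := h3 m₀
    have h4 := hm₀ m hm
    rw [hM] at h4
    obtain ⟨k, rfl⟩ := Nat.exists_eq_add_of_le h1
    simp only [Nat.add_sub_cancel_left] at h4
    push_cast at h4
    have h5 : (1 + (k : ℤ) - 1) ^ 2 = (k : ℤ) ^ 2 := by ring
    rw [h5] at h4
    omega

end Pool.Agent.Results.MP_a6acde_co.Sharp
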